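import Pool.Agent.Helper4.HZ.Goals
import Pool.Agent.Helper23.Hurwitz.Count
import Mathlib.LinearAlgebra.Projectivization.PSL.PSL2

/-!
# Genera with a unique Hurwitz surface, packet LOW

Author: helper77.
-/

namespace Pool.Agent.Helper77.HZ

open Pool.Agent.Helper23.Hurwitz Pool.Agent.Helper4.HZ

/-- in a nonabelian simple group a normal `p`-subgroup is trivial -/
theorem pnormal {T : Type} [Group T] [Finite T] (hT : NS T) {p : ℕ} [Fact p.Prime] (W : Subgroup T)
    (hW : W.Normal) (hp : IsPGroup p W) : W = ⊥ := by
  obtain ⟨hs, a, b, hab⟩ := hT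
  rcases hW.eq_bot_or_eq_top with h | h
  · exact h
  · exfalso
    subst h
    have hp' : IsPGroup p T := hp.of_equiv Subgroup.topEquiv
    have hnt : Nontrivial T := hs.toNontrivial
    have hc := hp'.center_nontrivial
    have hcn : (Subgroup.center T).Normal := inferInstance
    rcases hcn.eq_bot_or_eq_top with h | h
    · rw [h] at hc
      exact not_subsingleton _ (inferInstance : Subsingleton (⊥ : Subgroup T))
    · apply hab
      have ha : a ∈ Subgroup.center T := by rw [h]; trivial
      exact (Subgroup.mem_center_iff.mp ha b).symm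

/-- a nonabelian composition factor of an extension of a simple group by a `p`-group -/
theorem factor {G S : Type} [Group G] [Group S] [Finite G] (hS : IsSimpleGroup S) (f : G →* S)
    (hf : Function.Surjective f) {p : ℕ} [Fact p.Prime] (hp : IsPGroup p f.ker)
    (H : Subgroup G) (M : Subgroup H) [hM : M.Normal] (hH : H.IsSubnormal) (hT : NS (H ⧸ M)) :
    Nonempty ((H ⧸ M) ≃* S) := by
  have hnt : Nontrivial (H ⧸ M) := hT.1.toNontrivial
  have hMtop : M ≠ ⊤ := by
    intro h
    have : Subsingleton (H ⧸ M) := by
      rw [h]; exact QuotientGroup.subsingleton_quotient_top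
    exact not_subsingleton _ this
  let g : H →* S := f.comp H.subtype
  have hgk : IsPGroup p g.ker := by
    have h1 : g.ker = f.ker.comap H.subtype := rfl
    rw [h1]
    exact hp.comap_of_injective H.subtype H.subtype_injective
  -- the kernel of `g` is contained in `M`
  have hkM : g.ker ≤ M := by
    have h1 : (g.ker.map (QuotientGroup.mk' M)) = ⊥ := by
      refine pnormal (p := p) hT _ ?_ ?_
      · exact Subgroup.Normal.map inferInstance _ (QuotientGroup.mk'_surjective M)
      · exact hgk.map _
    rw [Subgroup.map_eq_bot_iff] at h1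
    simpa using h1
  have hrange : g.range = H.map f := by
    rw [MonoidHom.range_comp, Subgroup.range_subtype]
  have hsub : (H.map f).IsSubnormal := hH.map hf
  have hg : Function.Surjective g := by
    rcases hsub.eq_bot_or_top_of_isSimpleGroup hS with h | h
    · exfalso
      apply hMtop
      rw [← hrange, MonoidHom.range_eq_bot_iff] at h
      rw [eq_top_iff]
      refine le_trans ?_ hkM
      rw [h, MonoidHom.ker_one]
    · rw [← hrange] at h
      exact MonoidHom.range_eq_top.mp h
  have hMg : (M.map g) = ⊥ := by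
    have hn : (M.map g).Normal := hM.map g hg
    rcases hn.eq_bot_or_eq_top with h | h
    · exact h
    · exfalso
      apply hMtop
      have h1 := Subgroup.comap_map_eq_self hkM
      rw [h, Subgroup.comap_top] at h1
      exact h1.symm
  have hMk : M = g.ker := le_antisymm ((Subgroup.map_eq_bot_iff _).mp hMg) hkM
  exact ⟨(QuotientGroup.quotientMulEquivOfEq hMk).trans (QuotientGroup.quotientKerEquivOfSurjective g hg)⟩

/-- packet LOW -/
theorem LOW_holds (hP : S_PSV) : S_LOW := by
  intro l hl hl168 K hK hKi H M hM hH hT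
  have : Fact l.Prime := ⟨hl⟩
  obtain ⟨N, hNn, hN⟩ := exists_index_168
  have := hNn
  have hKN : K ≤ N := normal_le_of_index l hl168 N hN K hKi
  obtain ⟨eN⟩ := hP N hN
  have : Fact (Nat.Prime 7) := ⟨by norm_num⟩
  have hs7 : IsSimpleGroup (PSL2 7) :=
    Matrix.ProjectiveSpecialLinearGroup.rank_two_simple (by rw [Nat.card_zmod]; norm_num)
  have hsN : IsSimpleGroup (Delta ⧸ N) := by
    exact eN.isSimpleGroup
  have hKi0 : K.index ≠ 0 := by
    rw [hKi]; exact Nat.mul_ne_zero (by norm_num) (pow_ne_zero _ hl.ne_zero)
  have : Finite (Delta ⧸ K) := Nat.finite_of_card_ne_zero hKi0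
  let f : (Delta ⧸ K) →* (Delta ⧸ N) := QuotientGroup.map K N (MonoidHom.id Delta) hKN
  have hf : Function.Surjective f := by
    intro y
    obtain ⟨d, rfl⟩ := QuotientGroup.mk'_surjective N y
    exact ⟨QuotientGroup.mk' K d, rfl⟩
  have hcard : Nat.card f.ker = l ^ 6 := by
    have h1 := f.ker.card_mul_index
    have h2 : f.ker.index = 168 := by
      rw [Subgroup.index_ker, MonoidHom.range_eq_top.mpr hf, Subgroup.card_top]
      exact hN
    have h3 : Nat.card (Delta ⧸ K) = 168 * l ^ 6 := hKi
    rw [h2, h3, mul_comm 168] at h1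
    exact Nat.eq_of_mul_eq_mul_right (by norm_num) h1
  have hp : IsPGroup l f.ker := IsPGroup.of_card hcard
  obtain ⟨e⟩ := factor hsN f hf hp H M hH hT
  exact ⟨7, by norm_num, ⟨e.trans eN⟩⟩

end Pool.Agent.Helper77.HZ
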